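import Mathlib

namespace Pool.Agent.Results.MP_f17a8d_co.Full
open Finset Equiv

/-- The shaded boxes. -/
def R : List (ℕ × ℕ) :=
  [(0, 2), (0, 3), (1, 2), (1, 3), (2, 0), (2, 1), (2, 2), (2, 3), (3, 1), (3, 2)]

/-- `π` contains the mesh pattern `(132, R)`; positions and values are shifted to `1..n`. -/
def Contains {n : ℕ} (π : Perm (Fin n)) : Prop := ∃ i j k : Fin n, i < j ∧ j < k ∧ π i < π k ∧
  π k < π j ∧ ∀ ab ∈ R, ¬ ∃ x : Fin n,
    [0, i.1 + 1, j.1 + 1, k.1 + 1, n + 1].getD ab.1 0 < x.1 + 1 ∧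
    x.1 + 1 < [0, i.1 + 1, j.1 + 1, k.1 + 1, n + 1].getD (ab.1 + 1) 0 ∧
    [0, (π i).1 + 1, (π k).1 + 1, (π j).1 + 1, n + 1].getD ab.2 0 < (π x).1 + 1 ∧
    (π x).1 + 1 < [0, (π i).1 + 1, (π k).1 + 1, (π j).1 + 1, n + 1].getD (ab.2 + 1) 0

def r {n : ℕ} (w : Perm (Fin n)) (i : ℕ) : ℕ := if h : i < n then w ⟨i, h⟩ else 0

def H (n : ℕ) (r : ℕ → ℕ) (b : ℕ) : Prop := b + 1 < n ∧ r b = r (b + 1) + 1 ∧
  (∀ d, b + 1 < d → d < n → r (b + 1) < r d) ∧ ∀ a, a + 1 = b → r a < r (b + 1)

lemma rv {n : ℕ} (w : Perm (Fin n)) (i : Fin n) : r w i = w i := by simp [r]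
lemma rl {n : ℕ} (w : Perm (Fin n)) {i : ℕ} (h : i < n) : r w i < n := by simp [r, h]
lemma ri {n : ℕ} (w : Perm (Fin n)) {i : ℕ} (h : i < n) : r w⁻¹ (r w i) = i := by simp [r, h]
lemma rj {n : ℕ} (w : Perm (Fin n)) {i j : ℕ} (h : i < n) (h' : j < n) (e : r w i = r w j) :
    i = j := by rw [← ri w h, e, ri w h']

lemma con {n : ℕ} (π : Perm (Fin n)) : Contains π ↔ ∃ b, 1 ≤ b ∧ H n (r π⁻¹) b := by
  have g : ∀ v < n, r π (r π⁻¹ v) = v := fun v h => ri π⁻¹ h
  have e : Contains π ↔ ∃ i j k, k < n ∧ i < j ∧ j < k ∧ r π i < r π k ∧ r π k < r π j ∧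
      ∀ x < n, ¬ (x < j ∧ x ≠ i ∧ r π k < r π x ∧ r π x ≠ r π j) ∧
        ¬ (j < x ∧ x < k ∧ r π x ≠ r π i ∧ r π x ≠ r π j ∧ r π x ≠ r π k) ∧
        ¬ (k < x ∧ r π i < r π x ∧ r π x < r π j ∧ r π x ≠ r π k) := by
    constructor
    · rintro ⟨i, j, k, a, b, c, d, h⟩
      refine ⟨i, j, k, k.2, a, b, by simpa [rv] using c, by simpa [rv] using d, fun x hx => ?_⟩
      obtain ⟨x, rfl⟩ : ∃ y : Fin n, y.1 = x := ⟨⟨x, hx⟩, rfl⟩
      simp only [R, List.forall_mem_cons, not_exists] at h
      obtain ⟨h1, h2, h3, h4, h5, h6, h7, h8, h9, h10, -⟩ := h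
      have := h1 x; have := h2 x; have := h3 x; have := h4 x; have := h5 x; have := h6 x
      have := h7 x; have := h8 x; have := h9 x; have := h10 x
      have := (π x).2
      simp only [rv, List.getD_cons_succ, List.getD_cons_zero, Fin.lt_def] at *
      omega
    · rintro ⟨i, j, k, q, a, b, c, d, h⟩
      obtain ⟨i, rfl⟩ : ∃ y : Fin n, y.1 = i := ⟨⟨i, by omega⟩, rfl⟩
      obtain ⟨j, rfl⟩ : ∃ y : Fin n, y.1 = j := ⟨⟨j, by omega⟩, rfl⟩
      obtain ⟨k, rfl⟩ : ∃ y : Fin n, y.1 = k := ⟨⟨k, by omega⟩, rfl⟩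
      refine ⟨i, j, k, a, b, by simpa [rv] using c, by simpa [rv] using d, ?_⟩
      simp only [R, List.forall_mem_cons, not_exists, List.getD_cons_succ, List.getD_cons_zero]
      simp only [rv] at c d
      refine ⟨?_, ?_, ?_, ?_, ?_, ?_, ?_, ?_, ?_, ?_, by simp⟩ <;> intro x <;>
        have := h x x.2 <;> simp only [rv] at this <;> omega
  rw [e]
  constructor
  · rintro ⟨i, j, k, q, a, b, c, d, h⟩
    have i1 := ri π (show i < n by omega)
    have i2 := ri π (show j < n by omega)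
    have i3 := ri π q
    have l := rl π (show j < n by omega)
    have k1 : k = j + 1 := by
      by_contra z
      have := h (j + 1) (by omega)
      have := rj π (show j + 1 < n by omega) (show i < n by omega)
      have := rj π (show j + 1 < n by omega) (show j < n by omega)
      have := rj π (show j + 1 < n by omega) q
      omega
    have u : ∀ v < n, (r π⁻¹ v = i → v = r π i) ∧ (r π⁻¹ v = j → v = r π j) ∧
        (r π⁻¹ v = k → v = r π k) := fun v hv =>
      ⟨fun z => by rw [← z, g v hv], fun z => by rw [← z, g v hv], fun z => by rw [← z, g v hv]⟩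
    have k2 : r π j = r π k + 1 := by
      by_contra z
      have t := h _ (rl π⁻¹ (show r π k + 1 < n by omega))
      have := u (r π k + 1) (by omega)
      rw [g _ (by omega)] at t
      omega
    refine ⟨r π k, by omega, by omega, by rw [← k2, i2, i3, k1], fun v x y => ?_, fun v x => ?_⟩
    · have t := h _ (rl π⁻¹ y)
      have := u v y
      rw [g _ y] at t
      rw [← k2, i2]; omega
    · have t := h _ (rl π⁻¹ (show v < n by omega))
      have := u v (by omega)
      have : v = r π i → r π⁻¹ v = i := fun z => z ▸ i1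
      rw [g _ (by omega)] at t
      rw [← k2, i2]; omega
  · rintro ⟨b, h0, h1, h2, h3, h4⟩
    have := h4 (b - 1) (by omega)
    refine ⟨r π⁻¹ (b - 1), r π⁻¹ (b + 1), r π⁻¹ b, rl _ (by omega), this, by omega, ?_⟩
    rw [g _ (by omega), g _ h1, g _ (by omega)]
    refine ⟨by omega, by omega, fun x hx => ?_⟩
    have := h3 (r π x)
    have := rl π hx
    rw [ri π hx] at *
    omega

def ins {n : ℕ} (p : Fin (n + 1)) (w : Perm (Fin n)) : Perm (Fin (n + 1)) :=
  (finSuccEquiv n).trans (w.optionCongr.trans (finSuccEquiv' p).symm)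

lemma i0 {n : ℕ} (p : Fin (n + 1)) (w : Perm (Fin n)) : r (ins p w) 0 = p := by simp [r, ins]

lemma i1 {n : ℕ} (p : Fin (n + 1)) (w : Perm (Fin n)) {i : ℕ} (h : i < n) :
    r (ins p w) (i + 1) = if r w i < p then r w i else r w i + 1 := by
  obtain ⟨i, rfl⟩ : ∃ y : Fin n, y.1 = i := ⟨⟨i, h⟩, rfl⟩
  rw [← Fin.val_succ, rv, rv]
  simp only [ins, trans_apply, finSuccEquiv_succ, optionCongr_apply, Option.map_some,
    finSuccEquiv'_symm_some, Fin.succAbove, Fin.lt_def, Fin.val_castSucc]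
  split_ifs <;> rfl

lemma sum_ins {n : ℕ} (f : Perm (Fin (n + 1)) → ℕ) :
    ∑ ρ, f ρ = ∑ w : Perm (Fin n), ∑ p, f (ins p w) := by
  rw [← Fintype.sum_prod_type']
  refine (Function.Bijective.sum_comp (e := fun x : Perm (Fin n) × Fin (n + 1) => ins x.2 x.1)
    ((Fintype.bijective_iff_injective_and_card _).2 ⟨?_, by
      simp [Fintype.card_perm, Nat.factorial_succ, mul_comm]⟩) f).symm
  rintro ⟨w, p⟩ ⟨v, q⟩ e
  have e : ins p w = ins q v := e
  obtain rfl : p = q := Fin.ext (by rw [← i0 p w, e, i0])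
  refine Prod.ext (Equiv.ext fun i => Fin.ext ?_) rfl
  have := i1 p w i.2
  rw [e, i1 p v i.2, rv, rv] at this
  show (w i).1 = v i
  split_ifs at this <;> omega

lemma h0 {n : ℕ} (w : Perm (Fin n)) (h : H n (r w) 0) : r w 1 = 0 := by
  obtain ⟨a, b, c, -⟩ := h
  have t := c (r w⁻¹ 0)
  have l := rl w⁻¹ (show 0 < n by omega)
  have e : r w (r w⁻¹ 0) = 0 := ri w⁻¹ (by omega)
  rcases hh : r w⁻¹ 0 with _ | _ | m <;> rw [hh] at t l e <;> simp only [zero_add] at * <;> omega

lemma hs {n : ℕ} (p : Fin (n + 1)) (w : Perm (Fin n)) (b : ℕ) : H (n + 1) (r (ins p w)) (b + 1) ↔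
    H n (r w) b ∧ p.1 ≠ r w (b + 1) + 1 ∧ (b = 0 → p.1 ≤ r w 1) := by
  by_cases l : b + 1 < n
  swap
  · exact iff_of_false (fun h => l (by have := h.1; omega)) fun h => l h.1.1
  have e1 := i1 p w l
  have e2 := i1 p w (show b < n by omega)
  constructor
  · rintro ⟨-, h1, h2, h3⟩
    refine ⟨⟨l, ?_, fun d x y => ?_, fun a x => ?_⟩, ?_, ?_⟩
    · split_ifs at e1 e2 <;> omega
    · have := h2 (d + 1) (by omega) (by omega)
      rw [i1 p w y, e1] at this
      split_ifs at this <;> omega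
    · have := h3 (a + 1) (by omega)
      rw [i1 p w (by omega), e1] at this
      split_ifs at this <;> omega
    · split_ifs at e1 e2 <;> omega
    · rintro rfl
      have := h3 0 rfl
      rw [i0, e1] at this
      simp only [zero_add] at *
      split_ifs at this <;> omega
  · rintro ⟨⟨-, h1, h2, h3⟩, h4, h5⟩
    refine ⟨by omega, by split_ifs at e1 e2 <;> omega, fun d x y => ?_, fun a x => ?_⟩
    · obtain ⟨d, rfl⟩ : ∃ e, d = e + 1 := ⟨d - 1, by omega⟩
      have := h2 d (by omega) (by omega)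
      rw [i1 p w (show d < n by omega), e1]
      split_ifs <;> omega
    · rcases a with _ | a
      · obtain rfl : b = 0 := by omega
        have := h5 rfl
        rw [i0, e1]
        simp only [zero_add] at *
        split_ifs <;> omega
      · have := h3 a (by omega)
        rw [i1 p w (show a < n by omega), e1]
        split_ifs <;> omega

open Classical in
noncomputable def O {n : ℕ} (c : ℕ) (w : Perm (Fin n)) : Finset ℕ :=
  (range n).filter fun b => c ≤ b ∧ H n (r w) b

lemma mO {n c b : ℕ} {w : Perm (Fin n)} : b ∈ O c w ↔ c ≤ b ∧ H n (r w) b := by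
  simp only [O, mem_filter, mem_range, and_iff_right_iff_imp]
  exact fun h => by have := h.2.1; omega

lemma o0 {n : ℕ} (w : Perm (Fin n)) : (O 1 (ins 0 w)).card = (O 0 w).card := by
  symm
  refine card_bij (fun b _ => b + 1) (fun b h => ?_) (by simp) fun b h => ?_
  · simp [mO, hs] at h ⊢; exact h
  · obtain ⟨b, rfl⟩ : ∃ e, b = e + 1 := ⟨b - 1, by have := (mO.1 h).1; omega⟩
    exact ⟨b, by simp [mO, hs] at h ⊢; exact h, rfl⟩

lemma o1 {n : ℕ} (q : Fin n) (w : Perm (Fin n)) : (O 1 (ins q.succ w)).card =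
    ((O 1 w).filter fun b => r w (b + 1) ≠ q).card := by
  have k : ∀ b, b + 1 ∈ O 1 (ins q.succ w) ↔ b ∈ (O 1 w).filter fun b => r w (b + 1) ≠ q := by
    intro b
    simp only [mO, hs, mem_filter, Fin.val_succ]
    constructor
    · rintro ⟨-, a, c, d⟩
      refine ⟨⟨?_, a⟩, by omega⟩
      by_contra z
      obtain rfl : b = 0 := by omega
      have := h0 w a
      omega
    · rintro ⟨⟨a, c⟩, d⟩
      exact ⟨by omega, c, by omega, by omega⟩
  symm
  refine card_bij (fun b _ => b + 1) (fun b h => (k b).2 h) (by simp) fun b h => ?_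
  obtain ⟨b, rfl⟩ : ∃ e, b = e + 1 := ⟨b - 1, by have := (mO.1 h).1; omega⟩
  exact ⟨b, (k b).1 h, rfl⟩

lemma o2 {n : ℕ} (w : Perm (Fin n)) (j : ℕ) :
    ∑ q : Fin n, (O 1 (ins q.succ w)).card.choose j = (n - j) * (O 1 w).card.choose j := by
  have inj : Set.InjOn (fun b => r w (b + 1)) (O 1 w) := fun a x b y e => by
    have := rj w (mO.1 x).2.1 (mO.1 y).2.1 e; omega
  have sb : (O 1 w).image (fun b => r w (b + 1)) ⊆ range n := fun x h => by
    obtain ⟨b, y, rfl⟩ := mem_image.1 h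
    exact mem_range.2 (rl w (mO.1 y).2.1)
  simp only [o1]
  rw [Fin.sum_univ_eq_sum_range (fun q => ((O 1 w).filter fun b => r w (b + 1) ≠ q).card.choose j),
    ← sum_sdiff sb, sum_congr rfl fun q h => show _ = (O 1 w).card.choose j by
      rw [filter_true_of_mem]; exact fun b y e => (mem_sdiff.1 h).2 (mem_image.2 ⟨b, y, e⟩),
    sum_congr (s₁ := image _ _) rfl fun q h => show _ = ((O 1 w).card - 1).choose j by
      obtain ⟨b, y, rfl⟩ := mem_image.1 h
      rw [← card_erase_of_mem y]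
      congr 2
      ext a
      simp only [mem_filter, mem_erase]
      exact ⟨fun z => ⟨fun e => z.2 (e ▸ rfl), z.1⟩, fun z => ⟨z.2, fun e => z.1 (inj z.2 y e)⟩⟩]
  have l := card_le_card sb
  simp only [sum_const, smul_eq_mul, card_sdiff_of_subset sb, card_image_of_injOn inj,
    card_range] at l ⊢
  rcases hk : (O 1 w).card with _ | k
  · rcases j with _ | j <;> simp
  · rw [hk] at l
    rw [Nat.add_sub_cancel, mul_comm (k + 1), Nat.choose_mul_succ_eq, mul_comm _ (k + 1 - j),
      ← add_mul]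
    by_cases z : j ≤ k + 1
    · congr 1; omega
    · simp [Nat.choose_eq_zero_of_lt (not_le.1 z)]

noncomputable def T (c n j : ℕ) : ℕ := ∑ w : Perm (Fin n), (O c w).card.choose j

lemma t1 (n j : ℕ) : T 1 (n + 1) j = T 0 n j + (n - j) * T 1 n j := by
  simp only [T, sum_ins, Fin.sum_univ_succ, o0, o2, sum_add_distrib, mul_sum]

lemma t2 (n j : ℕ) : T 0 (n + 2) (j + 1) = T 1 (n + 2) (j + 1) + T 0 n j := by
  classical
  have a : ∀ w : Perm (Fin (n + 2)), (O 0 w).card.choose (j + 1) = (O 1 w).card.choose (j + 1) +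
      if H (n + 2) (r w) 0 then (O 1 w).card.choose j else 0 := fun w => by
    split_ifs with h
    · rw [show O 0 w = insert 0 (O 1 w) by
        ext b; rcases b with _ | b <;> simp [mO, h], card_insert_of_notMem (by simp [mO]),
        Nat.choose_succ_succ', add_comm]
    · rw [show O 0 w = O 1 w by ext b; rcases b with _ | b <;> simp [mO, h], add_zero]
  have b : ∀ (w : Perm (Fin n)) p q, H (n + 2) (r (ins q (ins p w))) 0 ↔ p = 0 ∧ q = 1 := by
    intro w p q
    have e := i1 q (ins p w) (show 0 < n + 1 by omega)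
    rw [i0] at e
    constructor
    · intro h
      have u := h0 _ h
      have v := h.2.1
      rw [i0] at v
      simp only [zero_add, Fin.ext_iff, Fin.val_zero, Fin.val_one] at *
      split_ifs at e <;> omega
    · rintro ⟨rfl, rfl⟩
      refine ⟨by omega, by rw [i0, e]; simp, fun d x y => ?_, by simp⟩
      obtain ⟨d, rfl⟩ : ∃ e, d = e + 2 := ⟨d - 2, by omega⟩
      rw [e, i1 _ _ (show d + 1 < n + 1 by omega), i1 _ _ (show d < n by omega)]
      simp
  simp only [T, a, sum_add_distrib]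
  congr 1
  simp only [sum_ins, b, ite_and, sum_ite_irrel, sum_ite_eq', mem_univ, if_true, sum_const_zero]
  refine sum_congr rfl fun w _ => ?_
  rw [← Fin.succ_zero_eq_one, o1, filter_true_of_mem, o0]
  intro x hx
  rw [i1 _ _ (by have := (mO.1 hx).2.1; omega)]
  simp

lemma t3 (n : ℕ) : ∀ j, T 1 n j = (n - j - 1).choose j * (n - 2 * j).factorial ∧
    T 0 n j = (n - j).choose j * (n - 2 * j).factorial := by
  induction n using Nat.strong_induction_on with
  | _ n ih =>
  intro j
  have z : ∀ c, T c n 0 = n.factorial := fun c => by simp [T, Fintype.card_perm]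
  rcases j with _ | j
  · simp [z]
  have e : ∀ c, n ≤ 1 → T c n (j + 1) = 0 := fun c h => sum_eq_zero fun w _ => by
    rw [show O c w = ∅ from eq_empty_of_forall_notMem fun b hb => by
      have := (mO.1 hb).2.1; omega]; rfl
  have a : T 1 n (j + 1) = (n - (j + 1) - 1).choose (j + 1) * (n - 2 * (j + 1)).factorial := by
    rcases n with _ | n
    · simp [e]
    rw [t1, (ih n (by omega) _).1, (ih n (by omega) _).2]
    by_cases h : 2 * (j + 1) ≤ n
    · obtain ⟨m, rfl⟩ := Nat.exists_eq_add_of_le h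
      rw [show 2 * (j + 1) + m - (j + 1) = j + m + 1 by omega, Nat.add_sub_cancel_left,
        show 2 * (j + 1) + m + 1 - (j + 1) - 1 = j + m + 1 by omega, Nat.add_sub_cancel,
        show 2 * (j + 1) + m + 1 - 2 * (j + 1) = m + 1 by omega, ← mul_assoc,
        mul_comm (j + m + 1), Nat.choose_mul_succ_eq, show j + m + 1 - (j + 1) = m by omega,
        Nat.factorial_succ]
      ring
    · rw [Nat.choose_eq_zero_of_lt (by omega), Nat.choose_eq_zero_of_lt (by omega),
        Nat.choose_eq_zero_of_lt (by omega)]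
      simp
  refine ⟨a, ?_⟩
  rcases n with _ | _ | n
  · simp [e]
  · simp [e]
  rw [t2, a, (ih n (by omega) _).2, show n + 1 + 1 - 2 * (j + 1) = n - 2 * j by omega, ← add_mul]
  congr 1
  by_cases h : j ≤ n
  · rw [show n + 1 + 1 - (j + 1) = n - j + 1 by omega, Nat.add_sub_cancel, Nat.choose_succ_succ',
      add_comm]
  · rw [Nat.choose_eq_zero_of_lt (by omega), Nat.choose_eq_zero_of_lt (by omega),
      Nat.choose_eq_zero_of_lt (by omega)]

open PowerSeries

lemma cf (m n : ℕ) : coeff n ((X * (1 + X ^ 2)⁻¹ : ℚ⟦X⟧) ^ m) =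
    ∑ j ∈ range (n + 1), if m + 2 * j = n then (-1 : ℚ) ^ j * (n - j - 1).choose j else 0 := by
  have e : (1 + X ^ 2 : ℚ⟦X⟧)⁻¹ = expand 2 (by omega) (rescale (-1) (mk 1)) := by
    rw [PowerSeries.inv_eq_iff_mul_eq_one (by simp)]
    have := congrArg (fun f => expand 2 (by omega) (rescale (-1 : ℚ) f))
      (mk_one_mul_one_sub_eq_one ℚ)
    simpa [expand_X, rescale_X, expand_C] using this
  have c : ∀ j, coeff j ((mk 1 : ℚ⟦X⟧) ^ m) = (m + j - 1).choose j := fun j => by
    rcases m with _ | m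
    · rcases j with _ | j <;> simp [coeff_one]
    · rw [mk_one_pow_eq_mk_choose_add, coeff_mk, Nat.choose_symm_add]
      congr 2; omega
  rw [e, mul_pow, ← map_pow, ← map_pow, coeff_X_pow_mul', coeff_expand, coeff_rescale, c]
  split_ifs with h1 h2
  · obtain ⟨j, h⟩ := h2
    rw [sum_eq_single j (fun i _ z => if_neg (by omega)) (fun z => by simp at z; omega),
      if_pos (by omega), h, Nat.mul_div_cancel_left _ (by omega)]
    congr 3; omega
  · exact (sum_eq_zero fun j _ => if_neg fun z => h2 ⟨j, by omega⟩).symm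
  · exact (sum_eq_zero fun j _ => if_neg (by omega)).symm

theorem result (n M : ℕ) (h : n ≤ M) : (Nat.card {π : Perm (Fin n) // ¬ Contains π} : ℚ) =
    coeff n (∑ m ∈ range (M + 1), (m.factorial : ℚ⟦X⟧) * (X * (1 + X ^ 2)⁻¹) ^ m) := by
  classical
  have a : ∀ w : Perm (Fin n), (if ¬ Contains w then (1 : ℚ) else 0) =
      ∑ j ∈ range (n + 1), (-1 : ℚ) ^ j * (O 1 w⁻¹).card.choose j := fun w => by
    have l : (O 1 w⁻¹).card ≤ n := (card_filter_le _ _).trans (card_range n).le
    have t := congrArg (Int.cast : ℤ → ℚ) (Int.alternating_sum_range_choose (n := (O 1 w⁻¹).card))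
    push_cast at t
    rw [← sum_subset (range_subset_range.2 (Nat.succ_le_succ l)) fun j _ z => by
      rw [Nat.choose_eq_zero_of_lt (by simpa using z)]; simp, t]
    congr 1
    simp [con, eq_empty_iff_forall_notMem, mO]
  rw [Nat.card_eq_fintype_card, Fintype.card_subtype, card_filter]
  push_cast
  simp only [a, map_sum, ← nsmul_eq_mul, map_nsmul, cf, smul_sum]
  rw [sum_comm, sum_comm (s := range (M + 1))]
  refine sum_congr rfl fun j _ => ?_
  have b := congrArg (Nat.cast : ℕ → ℚ) (t3 n j).1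
  rw [T, ← Equiv.sum_comp (Equiv.inv _)] at b
  push_cast at b
  simp only [nsmul_eq_mul, ← mul_sum, Equiv.inv_apply] at b ⊢
  rw [b]
  by_cases z : 2 * j ≤ n
  · rw [sum_eq_single (n - 2 * j) (fun i _ z => by rw [if_neg (by omega), mul_zero])
      (fun z => by simp at z; omega), if_pos (by omega)]
    ring
  · rw [sum_eq_zero fun i _ => by rw [if_neg (by omega), mul_zero],
      Nat.choose_eq_zero_of_lt (by omega)]
    simp

end Pool.Agent.Results.MP_f17a8d_co.Full
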